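import Pool.Agent.V11124.FW.Main

/-! Third-order gaps of down- and up-integers in slow Fibonacci walks (Q1, answer: yes). -/

namespace Pool.Agent.Results.MP_e2feb3_nt.ThirdGaps

open Pool.Agent.V11124.FW

/-- Both the down-integers and the up-integers form infinite sets, and the sets of third-order
gaps of both are equal to `{3,4,5,6,7,8,10,11,13}`. -/
theorem result :
    {n : ℕ | Down n}.Infinite ∧ {n : ℕ | Up n}.Infinite ∧
      gaps Down 3 = {3, 4, 5, 6, 7, 8, 10, 11, 13} ∧
      gaps Up 3 = {3, 4, 5, 6, 7, 8, 10, 11, 13} :=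
  ⟨inf_down, inf_up, gaps_down, gaps_up⟩

end Pool.Agent.Results.MP_e2feb3_nt.ThirdGaps
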